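import Pool.Agent.OddGr75.Own

/-!
# MP_d22128_co: the class of every odd graph

For `k ≥ 2` the odd graph `O_k` has a proper edge colouring with `k` colours if and only if `k ≠ 3` and `k` is
not a power of two.
-/

set_option autoImplicit false

namespace Pool.Agent.Results.MP_d22128_co.OddGraphClass

/-- `c` is a proper edge colouring of the odd graph `O_k` with `k` colours.  The vertices of `O_k` are the
`(k-1)`-element subsets of the `(2k-1)`-element set `Fin (2k-1)`, two of them are adjacent when they are disjoint,
`c A B` is the colour of the edge `AB` (so `c A B = c B A`), and two different edges `AB`, `AB'` at a vertex `A`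
get different colours. -/
def IsEdgeColouring (k : ℕ)
    (c : Finset (Fin (2 * k - 1)) → Finset (Fin (2 * k - 1)) → Fin k) : Prop :=
  (∀ A B, A.card = k - 1 → B.card = k - 1 → Disjoint A B → c A B = c B A) ∧
  ∀ A B B', A.card = k - 1 → B.card = k - 1 → B'.card = k - 1 → Disjoint A B → Disjoint A B' →
    B ≠ B' → c A B ≠ c A B'

/-- **Biggs' conjecture on the odd graphs**, with its converse: for every `k ≥ 2` the odd graph `O_k` has a proper
edge colouring with `k` colours (is of class one) exactly when `k ≠ 3` and `k` is not a power of two. -/
theorem result (k : ℕ) (hk : 2 ≤ k) :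
    (∃ c, IsEdgeColouring k c) ↔ k ≠ 3 ∧ ∀ n : ℕ, k ≠ 2 ^ n :=
  OddGr75.own_iff k hk

end Pool.Agent.Results.MP_d22128_co.OddGraphClass
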